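import Pool.Agent.KS6_60.MB.D

/-!
# Edge-scribed polytopes: every combinatorial isomorphism is a unique Möbius transformation

For all edge-scribed polytopes `P, P'` of dimension `d + 1 ≥ 3` every isomorphism of their face
lattices is induced by exactly one Möbius transformation of the sphere `S^d` (given by a Lorentz
matrix); and every such `P` has a Möbius image `Q` (again edge-scribed) all of whose combinatorial
automorphisms are induced by orthogonal transformations.  This applies to the 600-cell and to the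
120-cell.
-/

set_option autoImplicit false

namespace Pool.Agent.Results.MP_dcc731_co.RigidityAndSymmetry

open Matrix

/-- Euclidean space `ℝ^D` -/
abbrev E (D : ℕ) := Fin D → ℝ

/-- `P` is an edge-scribed polytope: the convex hull of a finite set, with nonempty interior, and the
line through each edge (a segment between two vertices which is a face) is tangent to the unit sphere
at a point of the edge. -/
structure EdgeScribed {D : ℕ} (P : Set (E D)) : Prop where
  polytope : ∃ V : Finset (E D), P = convexHull ℝ (V : Set (E D))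
  full : (interior P).Nonempty
  tangent : ∀ a ∈ P.extremePoints ℝ, ∀ b ∈ P.extremePoints ℝ, a ≠ b → IsExposed ℝ P (segment ℝ a b) →
    ∃ p ∈ segment ℝ a b, ∑ i, p i ^ 2 = 1 ∧ ∀ t : ℝ, 1 ≤ ∑ i, (a i + t * (b i - a i)) ^ 2

/-- `f` is an isomorphism of the face lattices of `P` and `Q`: a bijection between the vertices such
that a set of vertices spans a face of `P` iff its image spans a face of `Q`. -/
def CombIso {D : ℕ} (P Q : Set (E D)) (f : E D → E D) : Prop :=
  Set.BijOn f (P.extremePoints ℝ) (Q.extremePoints ℝ) ∧ ∀ S ⊆ P.extremePoints ℝ,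
    (IsExposed ℝ P (convexHull ℝ S) ↔ IsExposed ℝ Q (convexHull ℝ (f '' S)))

/-- the Lorentz form `diag(-1, 1, …, 1)`; the index `none` is the time coordinate -/
def J (D : ℕ) : Matrix (Option (Fin D)) (Option (Fin D)) ℝ :=
  Matrix.diagonal (fun i => Option.elim i (-1 : ℝ) (fun _ => (1 : ℝ)))

/-- the point `(1, x)` -/
def lift {D : ℕ} (x : E D) : Option (Fin D) → ℝ := fun i => Option.elim i (1 : ℝ) x

/-- the projective transformation of `ℝ^D` given by the matrix `M`; for a Lorentz matrix its
restriction to the unit sphere is a Möbius transformation of the sphere -/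
noncomputable def proj {D : ℕ} (M : Matrix (Option (Fin D)) (Option (Fin D)) ℝ) (x : E D) : E D :=
  fun j => (M *ᵥ lift x) (some j) / (M *ᵥ lift x) none

/-- The Möbius transformation `M` induces the map `f` of the vertices of `P`: `M` is a Lorentz
matrix, normalised (among `M`, `-M`) by being positive on `P`, and maps each vertex `v` to `f v`. -/
structure Induces {D : ℕ} (M : Matrix (Option (Fin D)) (Option (Fin D)) ℝ) (P : Set (E D))
    (f : E D → E D) : Prop where
  lorentz : M.transpose * J D * M = J D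
  pos : ∀ x ∈ P, 0 < (M *ᵥ lift x) none
  vert : ∀ v ∈ P.extremePoints ℝ, proj M v = f v

/-- the unit sphere -/
def sphere (D : ℕ) : Set (E D) := {x | ∑ i, x i ^ 2 = 1}

/-- the cap of the sphere visible from `v` -/
def cap {D : ℕ} (v : E D) : Set (E D) := {x | ∑ i, x i ^ 2 = 1 ∧ 1 ≤ ∑ i, x i * v i}

open Pool.Agent.H242R3.ES Pool.Agent.H454R3.ES Pool.Agent.KS6_60.MB in
theorem toGood {D : ℕ} {P : Set (E D)} (hP : EdgeScribed P) :
    ∃ V : Finset (E D), (V : Set (E D)) = P.extremePoints ℝ ∧ convexHull ℝ (V : Set (E D)) = P ∧ Good V := by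
  obtain ⟨⟨S, rfl⟩, h2, h3⟩ := hP
  have h1 : (Set.extremePoints ℝ (convexHull ℝ (S : Set (E D)))).Finite :=
    S.finite_toSet.subset extremePoints_convexHull_subset
  have h4 : convexHull ℝ ((h1.toFinset : Finset (E D)) : Set (E D)) = convexHull ℝ (S : Set (E D)) := by
    rw [h1.coe_toFinset]
    exact (F3.hull S).symm
  refine ⟨h1.toFinset, h1.coe_toFinset, h4, ?_, ?_⟩
  · rw [h4]; exact h2
  · intro a ha b hb hab hexp
    rw [h4] at hexp
    exact h3 a (h1.mem_toFinset.1 ha) b (h1.mem_toFinset.1 hb) hab hexp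

open Pool.Agent.H242R3.ES Pool.Agent.H454R3.ES Pool.Agent.KS6_60.MB in
theorem rigid {D : ℕ} (hD : 3 ≤ D) {P P' : Set (E D)} (hP : EdgeScribed P) (hP' : EdgeScribed P')
    {f : E D → E D} (hf : CombIso P P' f) :
    (∃! M, Induces M P f) ∧ ∀ M, Induces M P f → proj M '' P = P' ∧
      Set.BijOn (proj M) (sphere D) (sphere D) ∧ ∀ v ∈ P.extremePoints ℝ, proj M '' cap v = cap (f v) := by
  obtain ⟨V, hV1, hV2, hV⟩ := toGood hP
  obtain ⟨W, hW1, hW2, hW⟩ := toGood hP'
  have eV : EP V = P.extremePoints ℝ := by rw [← hV2]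
  have eW : EP W = P'.extremePoints ℝ := by rw [← hW2]
  have hI : Iso V W f := by
    refine ⟨by rw [eV, eW]; exact hf.1, ?_⟩
    rw [eV, hV2, hW2]
    exact hf.2
  obtain ⟨hfin, hvert, hspan⟩ := tr1 D (by omega) V hV.1
  obtain ⟨v1, -⟩ := tr2 D (by omega) V hV.1 hV.2
  obtain ⟨w1, -⟩ := tr2 D (by omega) W hW.1 hW.2
  -- a matrix inducing `f`, in terms of the linear map
  have conv : ∀ M, Induces M P f → ∀ a ∈ EP V, ∃ c : ℝ, 0 < c ∧
      (Matrix.toLin' M) (hom a) = c • hom (f a) := by
    intro M hM a ha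
    have haP : a ∈ P.extremePoints ℝ := eV ▸ ha
    have h0 := hM.pos a haP.1
    refine ⟨_, h0, ?_⟩
    rw [Matrix.toLin'_apply, ← hM.vert a haP]
    exact Pool.Agent.Q223.Mob.mulVec_lft (M := M) (x := a) h0.ne'
  have key : ∀ M, Induces M P f → proj M '' P = P' := by
    intro M hM
    have h := (image_hull hI.1 (Matrix.toLin' M) (conv M hM)).2
    rw [hV2, hW2] at h
    exact h
  refine ⟨?_, fun M hM => ⟨key M hM, Pool.Agent.Q223.Mob.mb_sphere hM.lorentz, fun v hv => ?_⟩⟩
  · obtain ⟨T, hT, hTc⟩ := ind hD hV hW hI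
    have hmul : ∀ x : E D, (LinearMap.toMatrix' T) *ᵥ lift x = T (hom x) := fun x =>
      LinearMap.toMatrix'_mulVec T (hom x)
    refine ⟨LinearMap.toMatrix' T, ⟨F3.lorentz T hT, ?_, ?_⟩, ?_⟩
    · intro x hx
      rw [hmul]
      exact (image_hull hI.1 T hTc).1 x (by rw [hV2]; exact hx)
    · intro v hv
      obtain ⟨c, hc, h⟩ := hTc v (eV ▸ hv)
      ext j
      unfold proj
      rw [hmul, h]
      simp only [Pi.smul_apply, smul_eq_mul, hom, Option.elim, mul_one]
      field_simp
    · intro M hM
      have hML : ∀ x y, B ((Matrix.toLin' M) x) ((Matrix.toLin' M) y) = B x y := fun x y => by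
        rw [Matrix.toLin'_apply, Matrix.toLin'_apply]
        exact B_mulVec hM.lorentz x y
      have h1 : Matrix.toLin' M = T := by
        apply LinearMap.ext_on hspan
        rintro _ ⟨i, rfl⟩
        obtain ⟨c, hc, h⟩ := hTc i i.2
        obtain ⟨c', hc', h'⟩ := conv M hM i i.2
        have ha := v1 i i.2
        have hb := w1 (f i) (hI.1.mapsTo i.2)
        have e1 := factor ha hb hT hc h
        have e2 := factor ha hb hML hc' h'
        have e3 : c = c' := by
          have := (nrm_pos hb).ne'
          rw [e1] at e2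
          exact mul_right_cancel₀ this e2
        show (Matrix.toLin' M) (hom (i : E D)) = T (hom (i : E D))
        rw [h, h', e3]
      rw [← h1, LinearMap.toMatrix'_toLin']
  · obtain ⟨p, hp, hp1⟩ := edge_point (by omega) hV
    have hc : Convex ℝ P := by rw [← hV2]; exact convex_convexHull ℝ _
    have h := Pool.Agent.Q223.Mob.mb_cap hM.lorentz hc (fun x hx => (hM.pos x hx).ne')
      ⟨p, by rw [← hV2]; exact hp, hp1⟩ hv.1
    have h2 : Pool.Agent.Q223.Mob.mb M v = f v := hM.vert v hv
    rw [h2] at h
    exact h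

open Pool.Agent.H242R3.ES Pool.Agent.H454R3.ES Pool.Agent.KS6_60.MB in
/-- **Möbius rigidity and the symmetric model, for all edge-scribed polytopes of dimension `≥ 3`.**
Let `d ≥ 2` and let `P` be an edge-scribed `(d+1)`-polytope.
(1) For every edge-scribed `P'` and every isomorphism `f` of the face lattices of `P` and `P'` there
is exactly one Möbius transformation which induces `f`; it maps `P` onto `P'` and the cap of each
vertex `v` onto the cap of `f v`.
(2) There is an edge-scribed `Q` of the same combinatorial type (so a Möbius image of `P` by (1)) such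
that every combinatorial automorphism of `Q` is induced by an orthogonal transformation. -/
theorem result (d : ℕ) (hd : 2 ≤ d) (P : Set (E (d + 1))) (hP : EdgeScribed P) :
    (∀ P' : Set (E (d + 1)), EdgeScribed P' → ∀ f, CombIso P P' f →
      (∃! M, Induces M P f) ∧ ∀ M, Induces M P f → proj M '' P = P' ∧
        Set.BijOn (proj M) (sphere (d + 1)) (sphere (d + 1)) ∧
        ∀ v ∈ P.extremePoints ℝ, proj M '' cap v = cap (f v)) ∧
    ∃ (Q : Set (E (d + 1))) (g : E (d + 1) → E (d + 1)), EdgeScribed Q ∧ CombIso P Q g ∧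
      ∀ f, CombIso Q Q f → ∃ O ∈ Matrix.orthogonalGroup (Fin (d + 1)) ℝ,
        ∀ v ∈ Q.extremePoints ℝ, O *ᵥ v = f v := by
  refine ⟨fun P' hP' f hf => rigid (by omega) hP hP' hf, ?_⟩
  obtain ⟨V, hV1, hV2, hV⟩ := toGood hP
  obtain ⟨W, g, hW, hg, hO⟩ := model (by omega) hV
  have eV : EP V = P.extremePoints ℝ := by rw [← hV2]
  refine ⟨convexHull ℝ (W : Set (E (d + 1))), g, ⟨⟨W, rfl⟩, hW.1, ?_⟩, ?_, ?_⟩
  · intro a ha b hb hab hexp
    exact hW.2 a (extremePoints_convexHull_subset ha) b (extremePoints_convexHull_subset hb) hab hexp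
  · refine ⟨?_, ?_⟩
    · rw [← eV]; exact hg.1
    · rw [← eV, ← hV2]; exact hg.2
  · intro f hf
    exact hO f hf

end Pool.Agent.Results.MP_dcc731_co.RigidityAndSymmetry
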